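import Mathlib

namespace Pool.Agent.Results.MP_5ead0a_co.Small

open Finset SimpleGraph

variable {n : ℕ}

def Dom (G : SimpleGraph (Fin n)) (D : Finset (Fin n)) : Prop := ∀ v ∉ D, ∃ u ∈ D, G.Adj v u

noncomputable def gamma (G : SimpleGraph (Fin n)) : ℕ := sInf {k | ∃ D, Dom G D ∧ #D = k}

noncomputable def indDom (G : SimpleGraph (Fin n)) : ℕ :=
  sInf {k | ∃ D, Dom G D ∧ (∀ u ∈ D, ∀ v ∈ D, ¬ G.Adj u v) ∧ #D = k}

def Critical3 (G : SimpleGraph (Fin n)) : Prop :=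
  gamma G = 3 ∧ ∀ u v, u ≠ v → ¬ G.Adj u v → gamma (G ⊔ edge u v) < 3

def c (j p : ℕ) : ℕ :=
  ([[0, 1, 0, 2, 0, 1, 0], [1, 0, 3, 3, 1, 2, 3], [0, 3, 0, 3, 2, 0, 0], [2, 3, 3, 0, 2, 2, 1],
    [0, 1, 2, 2, 0, 0, 3], [1, 2, 0, 2, 0, 0, 0], [0, 3, 0, 1, 3, 0, 0]].getD j []).getD p 0

def A (u v : Fin 28) : Bool :=
  u.val % 7 != v.val % 7 && (u.val / 7 != v.val / 7 || c (u.val % 7) (v.val % 7) == u.val / 7)

def H : SimpleGraph (Fin 28) where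
  Adj u v := A u v
  symm := ⟨by decide +kernel⟩
  loopless := ⟨by decide +kernel⟩

instance : DecidableRel H.Adj := fun u v => inferInstanceAs (Decidable (A u v = true))

lemma three {D : Finset (Fin 28)} (h : Dom H D) (h3 : #D ≤ 3) :
    ∃ a b c, D = {a, b, c} ∧ (#D ≤ 2 → b = c) := by
  obtain h0 | h1 | h2 | h3 : #D = 0 ∨ #D = 1 ∨ #D = 2 ∨ #D = 3 := by omega
  · obtain rfl := card_eq_zero.1 h0
    simpa using h 0
  · obtain ⟨a, rfl⟩ := card_eq_one.1 h1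
    exact ⟨a, a, a, by simp, fun _ => rfl⟩
  · obtain ⟨a, b, -, rfl⟩ := card_eq_two.1 h2
    exact ⟨a, b, b, by simp, fun _ => rfl⟩
  · obtain ⟨a, b, c, -, -, -, e⟩ := card_eq_three.1 h3
    exact ⟨a, b, c, e, by omega⟩

theorem result : ∃ G : SimpleGraph (Fin 28), Critical3 G ∧ indDom G = 4 := by
  have k2 : ∀ a b, ∃ v, v ≠ a ∧ v ≠ b ∧ ¬ H.Adj v a ∧ ¬ H.Adj v b := by decide +kernel
  have k3 : ∀ a b, ¬ H.Adj a b → ∀ c, ¬ H.Adj a c → ¬ H.Adj b c →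
      ∃ v, v ≠ a ∧ v ≠ b ∧ v ≠ c ∧ ¬ H.Adj v a ∧ ¬ H.Adj v b ∧ ¬ H.Adj v c := by decide +kernel
  have kc : ∀ u v, u ≠ v → ¬ H.Adj u v → ∃ z, (∀ w, w = u ∨ w = z ∨ w = v ∨ H.Adj w u ∨ H.Adj w z) ∨
      ∀ w, w = v ∨ w = z ∨ w = u ∨ H.Adj w v ∨ H.Adj w z := by decide +kernel
  refine ⟨H, ⟨IsLeast.csInf_eq ⟨⟨{0, 1, 7}, by unfold Dom; decide +kernel, by decide⟩, ?_⟩,
    fun u v e h => ?_⟩, IsLeast.csInf_eq ⟨⟨{0, 7, 14, 21}, by unfold Dom; decide +kernel,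
    by decide +kernel, by decide⟩, ?_⟩⟩
  · rintro _ ⟨D, h, rfl⟩
    by_contra l
    obtain ⟨a, b, c, e, e'⟩ := three h (by omega)
    obtain rfl := e' (by omega)
    obtain ⟨v, h1, h2, h3, h4⟩ := k2 a b
    simpa [e, h3, h4] using h v (by simp [e, h1, h2])
  · have t : ∀ u v z, u ≠ v → (∀ w, w = u ∨ w = z ∨ w = v ∨ H.Adj w u ∨ H.Adj w z) →
        gamma (H ⊔ edge u v) < 3 := fun u v z e k => by
      refine lt_of_le_of_lt (b := #{u, z}) (Nat.sInf_le ⟨{u, z}, fun w hw => ?_, rfl⟩)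
        (card_le_two.trans_lt (by omega))
      simp only [mem_insert, mem_singleton, not_or] at hw
      rcases k w with r | r | r | r | r
      · exact (hw.1 r).elim
      · exact (hw.2 r).elim
      · exact ⟨u, by simp, by simp [r, edge_adj, e.symm]⟩
      · exact ⟨u, by simp, .inl r⟩
      · exact ⟨z, by simp, .inl r⟩
    obtain ⟨z, k | k⟩ := kc u v e h
    · exact t u v z e k
    · rw [edge_comm]; exact t v u z e.symm k
  · rintro _ ⟨D, h, i, rfl⟩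
    by_contra l
    obtain ⟨a, b, c, e, -⟩ := three h (by omega)
    obtain ⟨v, h1, h2, h3, h4, h5, h6⟩ := k3 a b (i a (by simp [e]) b (by simp [e])) c
      (i a (by simp [e]) c (by simp [e])) (i b (by simp [e]) c (by simp [e]))
    simpa [e, h4, h5, h6] using h v (by simp [e, h1, h2, h3])

end Pool.Agent.Results.MP_5ead0a_co.Small
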